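import Pool.Agent.H253R3.Defs

set_option autoImplicit false

namespace Pool.Agent.H253R3

set_option maxRecDepth 100000 in
theorem chk1 : ∀ a b x : Fin 15, x ≠ a → x ≠ b →
    ∃ z : Fin 15, (z.val < 6 ∧ z ≠ a ∧ z ≠ b) ∧ (x = z ∨ adjG x z = true) := by decide

set_option maxRecDepth 100000 in
theorem chk1' : ∀ x : Fin 15, ∃ z : Fin 15, z.val < 6 ∧ (x = z ∨ adjG x z = true) := by decide

/-- the joints -/
def jt (z : Fin 6) : Fin 15 := ⟨z.val, by omega⟩

/-- boolean form of the second check -/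
def b2 (a b : Fin 15) (z w : Fin 6) : Bool :=
  (jt z == a) || (jt z == b) || (jt w == a) || (jt w == b) || (z == w) || adjG (jt z) (jt w) ||
    [0, 1, 2, 3, 4, 5].any (fun u : Fin 6 => (jt u != a) && (jt u != b) && adjG (jt z) (jt u) &&
      adjG (jt u) (jt w))

set_option maxRecDepth 100000 in
theorem b2_true : ∀ a b : Fin 15, ∀ z w : Fin 6, b2 a b z w = true := by decide

theorem chk2 (a b : Fin 15) (z : Fin 15) (hz : z.val < 6 ∧ z ≠ a ∧ z ≠ b)
    (w : Fin 15) (hw : w.val < 6 ∧ w ≠ a ∧ w ≠ b) :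
    z = w ∨ adjG z w = true ∨
      ∃ u : Fin 15, (u ≠ a ∧ u ≠ b) ∧ adjG z u = true ∧ adjG u w = true := by
  have h := b2_true a b ⟨z.val, hz.1⟩ ⟨w.val, hw.1⟩
  have ez : jt ⟨z.val, hz.1⟩ = z := rfl
  have ew : jt ⟨w.val, hw.1⟩ = w := rfl
  unfold b2 at h
  rw [ez, ew] at h
  simp only [Bool.or_eq_true, beq_iff_eq, List.any_eq_true, Bool.and_eq_true, bne_iff_ne] at h
  rcases h with (((((h | h) | h) | h) | h) | h) | ⟨u, _, ⟨⟨h1, h2⟩, h3⟩, h4⟩
  · exact absurd h hz.2.1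
  · exact absurd h hz.2.2
  · exact absurd h hw.2.1
  · exact absurd h hw.2.2
  · left
    rw [Fin.mk.injEq] at h
    exact Fin.ext h
  · right; left; exact h
  · right; right
    exact ⟨jt u, ⟨h1, h2⟩, h3, h4⟩

set_option maxRecDepth 100000 in
theorem chk2' : ∀ z : Fin 15, z.val < 6 → ∀ w : Fin 15, w.val < 6 →
    z = w ∨ adjG z w = true ∨ ∃ u : Fin 15, adjG z u = true ∧ adjG u w = true := by decide

theorem conn_of (S : Finset (Fin 15)) (hS : ∃ v, v ∉ S)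
    (h1 : ∀ x, x ∉ S → ∃ z, z ∉ S ∧ z.val < 6 ∧ (x = z ∨ adjG x z = true))
    (h2 : ∀ z, z ∉ S → z.val < 6 → ∀ w, w ∉ S → w.val < 6 →
      z = w ∨ adjG z w = true ∨ ∃ u, u ∉ S ∧ adjG z u = true ∧ adjG u w = true) :
    (G.induce {v : Fin 15 | v ∉ S}).Connected := by
  have step : ∀ (x y : {v : Fin 15 | v ∉ S}), adjG x.1 y.1 = true →
      (G.induce {v : Fin 15 | v ∉ S}).Reachable x y := by
    intro x y h
    refine SimpleGraph.Adj.reachable ?_
    rw [SimpleGraph.comap_adj]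
    exact h
  have r1 : ∀ x : {v : Fin 15 | v ∉ S}, ∃ z : {v : Fin 15 | v ∉ S}, z.1.val < 6 ∧
      (G.induce {v : Fin 15 | v ∉ S}).Reachable x z := by
    intro x
    obtain ⟨z, hz, hz6, h⟩ := h1 x.1 x.2
    refine ⟨⟨z, hz⟩, hz6, ?_⟩
    rcases h with h | h
    · have : x = ⟨z, hz⟩ := Subtype.ext h
      rw [← this]
    · exact step x ⟨z, hz⟩ h
  have r2 : ∀ z w : {v : Fin 15 | v ∉ S}, z.1.val < 6 → w.1.val < 6 →
      (G.induce {v : Fin 15 | v ∉ S}).Reachable z w := by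
    intro z w hz hw
    rcases h2 z.1 z.2 hz w.1 w.2 hw with h | h | ⟨u, hu, h, h'⟩
    · have : z = w := Subtype.ext h
      rw [this]
    · exact step z w h
    · exact (step z ⟨u, hu⟩ h).trans (step ⟨u, hu⟩ w h')
  obtain ⟨v, hv⟩ := hS
  have : Nonempty {v : Fin 15 | v ∉ S} := ⟨⟨v, hv⟩⟩
  refine ⟨?_⟩
  intro x y
  obtain ⟨z, hz, h⟩ := r1 x
  obtain ⟨w, hw, h'⟩ := r1 y
  exact (h.trans (r2 z w hz hw)).trans h'.symm

theorem three_conn : ∀ S : Finset (Fin 15), S.card ≤ 2 →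
    (G.induce {v : Fin 15 | v ∉ S}).Connected := by
  intro S hS
  have hne : ∃ v, v ∉ S := by
    by_contra h
    push Not at h
    have : S = Finset.univ := Finset.eq_univ_iff_forall.mpr h
    rw [this] at hS
    simp at hS
  have h012 : S.card = 0 ∨ S.card = 1 ∨ S.card = 2 := by omega
  have main : ∀ a b : Fin 15, S = {a, b} → (G.induce {v : Fin 15 | v ∉ S}).Connected := by
    intro a b hab
    have hmem : ∀ v, v ∉ S ↔ (v ≠ a ∧ v ≠ b) := by
      intro v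
      rw [hab]
      simp
    apply conn_of S hne
    · intro x hx
      obtain ⟨hxa, hxb⟩ := (hmem x).mp hx
      obtain ⟨z, ⟨hz, hza, hzb⟩, h⟩ := chk1 a b x hxa hxb
      exact ⟨z, (hmem z).mpr ⟨hza, hzb⟩, hz, h⟩
    · intro z hz hz6 w hw hw6
      obtain ⟨hza, hzb⟩ := (hmem z).mp hz
      obtain ⟨hwa, hwb⟩ := (hmem w).mp hw
      rcases chk2 a b z ⟨hz6, hza, hzb⟩ w ⟨hw6, hwa, hwb⟩ with h | h | ⟨u, hu, h⟩
      · exact Or.inl h
      · exact Or.inr (Or.inl h)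
      · exact Or.inr (Or.inr ⟨u, (hmem u).mpr hu, h⟩)
  rcases h012 with h | h | h
  · rw [Finset.card_eq_zero] at h
    apply conn_of S hne
    · intro x _
      obtain ⟨z, hz, h'⟩ := chk1' x
      exact ⟨z, by rw [h]; simp, hz, h'⟩
    · intro z _ hz w _ hw
      rcases chk2' z hz w hw with h' | h' | ⟨u, h'⟩
      · exact Or.inl h'
      · exact Or.inr (Or.inl h')
      · exact Or.inr (Or.inr ⟨u, by rw [h]; simp, h'⟩)
  · obtain ⟨a, ha⟩ := Finset.card_eq_one.mp h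
    exact main a a (by rw [ha]; simp)
  · obtain ⟨a, b, _, hab⟩ := Finset.card_eq_two.mp h
    exact main a b hab

end Pool.Agent.H253R3
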