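import Pool.Agent.H253R3.Opn

set_option autoImplicit false
open scoped Topology
open MvPolynomial

namespace Pool.Agent.H253R3

/-- squared lengths of a decoupled configuration: body `i` has its own copy `P i` -/
noncomputable def mu (P : Fin 4 → Fin 15 → Fin 3 → ℂ) (e : Sym2 (Fin 15)) : ℂ :=
  Sym2.lift ⟨fun u v => ∑ k, (P (bod u v) u k - P (bod u v) v k) ^ 2, by
    intro u v
    refine Finset.sum_congr rfl fun k _ => ?_
    rw [bod_symm u v]; ring⟩ e

theorem mu_mk (P : Fin 4 → Fin 15 → Fin 3 → ℂ) (u v : Fin 15) :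
    mu P s(u, v) = ∑ k, (P (bod u v) u k - P (bod u v) v k) ^ 2 := rfl

/-- the polynomial form of `mu` -/
noncomputable def MU (e : Sym2 (Fin 15)) : MvPolynomial (Fin 4 × Fin 15 × Fin 3) ℂ :=
  Sym2.lift ⟨fun u v => ∑ k, (MvPolynomial.X (bod u v, u, k) - MvPolynomial.X (bod u v, v, k)) ^ 2, by
    intro u v
    refine Finset.sum_congr rfl fun k _ => ?_
    rw [bod_symm u v]; ring⟩ e

theorem eval_MU (y : Fin 4 × Fin 15 × Fin 3 → ℂ) (e : Sym2 (Fin 15)) :
    eval y (MU e) = mu (fun i v k => y (i, v, k)) e := by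
  induction e with
  | h u v =>
    simp [MU, mu]

theorem decouple (Γ : SimpleGraph (Fin 15))
    (hΓ : ∀ u v, Γ.Adj u v → inB (bod u v) u = true ∧ inB (bod u v) v = true)
    (f : MvPolynomial Γ.edgeSet ℂ)
    (hf : ∀ p : Fin 15 → Fin 3 → ℂ, eval (fun e : Γ.edgeSet => mu (fun _ => p) e.1) f = 0)
    (P : Fin 4 → Fin 15 → Fin 3 → ℂ) : eval (fun e : Γ.edgeSet => mu P e.1) f = 0 := by
  set Q : MvPolynomial (Fin 4 × Fin 15 × Fin 3) ℂ := bind₁ (fun e : Γ.edgeSet => MU e.1) f
    with hQ
  have hev : ∀ y : Fin 4 × Fin 15 × Fin 3 → ℂ, eval y Q =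
      eval (fun e : Γ.edgeSet => mu (fun i v k => y (i, v, k)) e.1) f := by
    intro y
    have h1 := eval₂Hom_bind₁ (RingHom.id ℂ) y (fun e : Γ.edgeSet => MU e.1) f
    have h2 : eval y Q = eval₂Hom (RingHom.id ℂ) (fun i : Γ.edgeSet =>
      (eval₂Hom (RingHom.id ℂ) y) (MU i.1)) f := h1
    rw [h2]
    have h3 : (fun i : Γ.edgeSet => (eval₂Hom (RingHom.id ℂ) y) (MU i.1)) =
        fun e : Γ.edgeSet => mu (fun i v k => y (i, v, k)) e.1 := by
      funext e
      exact eval_MU y e.1
    rw [h3]
    rfl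
  have hQ0 : Q = 0 := by
    obtain ⟨ε, hε, hball⟩ := Metric.mem_nhds_iff.mp Phi_open
    set c := Phi x0 with hc
    apply MvPolynomial.funext_set (s := fun b => (fun x : ℝ => (x : ℂ)) ''
      (Set.Ioo (c b - ε) (c b + ε)))
    · intro b
      exact (Set.Ioo_infinite (by linarith)).image (Complex.ofReal_injective.injOn)
    · intro y' hy'
      have hy'' : ∀ b, ∃ y : ℝ, y ∈ Set.Ioo (c b - ε) (c b + ε) ∧ (y : ℂ) = y' b := by
        intro b
        exact hy' b (Set.mem_univ b)
      choose y hy hyy using hy''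
      have hyball : y ∈ Metric.ball c ε := by
        rw [Metric.mem_ball, dist_pi_lt_iff hε]
        intro b
        rw [Real.dist_eq, abs_lt]
        obtain ⟨h1, h2⟩ := hy b
        constructor <;> linarith
      obtain ⟨x, hx⟩ := hball hyball
      rw [hev, map_zero]
      have key : (fun e : Γ.edgeSet => mu (fun i v k => y' (i, v, k)) e.1) =
          fun e : Γ.edgeSet => mu (fun _ => fun v k => ((x.2.2.1 v k : ℝ) : ℂ)) e.1 := by
        funext ⟨e, he⟩
        induction e with
        | h u v =>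
          rw [SimpleGraph.mem_edgeSet] at he
          obtain ⟨hu, hv⟩ := hΓ u v he
          simp only [mu_mk]
          have e1 : ∀ k, y' (bod u v, u, k) =
              ((rot (x.1 (bod u v)) (x.2.2.1 u) k + x.2.1 (bod u v) k : ℝ) : ℂ) := by
            intro k
            rw [← hyy, ← hx]
            simp only [Phi, hu, if_true]
          have e2 : ∀ k, y' (bod u v, v, k) =
              ((rot (x.1 (bod u v)) (x.2.2.1 v) k + x.2.1 (bod u v) k : ℝ) : ℂ) := by
            intro k
            rw [← hyy, ← hx]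
            simp only [Phi, hv, if_true]
          have e3 := rot_isom (x.1 (bod u v)) (x.2.2.1 u) (x.2.2.1 v)
          have e4 : ∑ k, (y' (bod u v, u, k) - y' (bod u v, v, k)) ^ 2 =
              ((∑ k, (rot (x.1 (bod u v)) (x.2.2.1 u) k -
                rot (x.1 (bod u v)) (x.2.2.1 v) k) ^ 2 : ℝ) : ℂ) := by
            push_cast
            refine Finset.sum_congr rfl fun k _ => ?_
            rw [e1 k, e2 k]
            push_cast
            ring
          rw [e4, e3]
          push_cast
          rfl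
      rw [key]
      exact hf _
  have h := hev (fun b => P b.1 b.2.1 b.2.2)
  rw [hQ0, map_zero] at h
  exact h.symm

end Pool.Agent.H253R3
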