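import Mathlib

set_option autoImplicit false

/-!
Four redundantly rigid bodies joined along the vertices of an octahedron.
Bodies `0,1,2,3`; bodies `i` and `j` share one vertex (a joint).  Body `0` has six vertices,
the others have five.
-/

namespace Pool.Agent.H253R3

/-- membership of a vertex in a body -/
def inB (i : Fin 4) (v : Fin 15) : Bool :=
  match i with
  | 0 => [0, 1, 2, 6, 7, 8].contains v
  | 1 => [0, 3, 4, 9, 10].contains v
  | 2 => [1, 3, 5, 11, 12].contains v
  | 3 => [2, 4, 5, 13, 14].contains v

/-- the body containing both vertices (if any) -/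
def bod (u v : Fin 15) : Fin 4 :=
  if inB 0 u && inB 0 v then 0 else if inB 1 u && inB 1 v then 1
  else if inB 2 u && inB 2 v then 2 else 3

/-- adjacency of the first graph: `7` and `8` are not adjacent -/
def adjG (u v : Fin 15) : Bool :=
  (u != v) && (inB (bod u v) u && inB (bod u v) v) &&
    !((u == 7 && v == 8) || (u == 8 && v == 7))

/-- adjacency of the second graph: `0` and `8` are not adjacent -/
def adjH (u v : Fin 15) : Bool :=
  (u != v) && (inB (bod u v) u && inB (bod u v) v) &&
    !((u == 0 && v == 8) || (u == 8 && v == 0))

theorem bod_symm : ∀ u v, bod u v = bod v u := by decide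

theorem adjG_symm : ∀ u v, adjG u v = adjG v u := by decide

theorem adjH_symm : ∀ u v, adjH u v = adjH v u := by decide

/-- the first graph -/
def G : SimpleGraph (Fin 15) where
  Adj u v := adjG u v = true
  symm := ⟨fun u v h => by rw [adjG_symm]; exact h⟩
  loopless := ⟨fun u h => by revert h; revert u; decide⟩

/-- the second graph -/
def H : SimpleGraph (Fin 15) where
  Adj u v := adjH u v = true
  symm := ⟨fun u v h => by rw [adjH_symm]; exact h⟩
  loopless := ⟨fun u h => by revert h; revert u; decide⟩

instance : DecidableRel G.Adj := fun u v => inferInstanceAs (Decidable (adjG u v = true))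
instance : DecidableRel H.Adj := fun u v => inferInstanceAs (Decidable (adjH u v = true))

theorem card_G : (Finset.univ.filter (fun v : Fin 15 =>
    (Finset.univ.filter (fun u : Fin 15 => adjG v u = true)).card = 9)).card = 3 := by decide

theorem card_H : (Finset.univ.filter (fun v : Fin 15 =>
    (Finset.univ.filter (fun u : Fin 15 => adjH v u = true)).card = 9)).card = 2 := by decide

theorem not_iso : ¬ Nonempty (G ≃g H) := by
  rintro ⟨φ⟩
  have h : (Finset.univ.filter (fun v : Fin 15 =>
      (Finset.univ.filter (fun u : Fin 15 => adjG v u = true)).card = 9)).card =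
      (Finset.univ.filter (fun v : Fin 15 =>
      (Finset.univ.filter (fun u : Fin 15 => adjH v u = true)).card = 9)).card := by
    refine Finset.card_bij (fun v _ => φ v) ?_ (fun a _ b _ h => φ.injective h) ?_
    · intro v hv
      simp only [Finset.mem_filter, Finset.mem_univ, true_and] at hv ⊢
      rw [← hv]
      symm
      refine Finset.card_bij (fun u _ => φ u) ?_ (fun a _ b _ h => φ.injective h) ?_
      · intro u hu
        simp only [Finset.mem_filter, Finset.mem_univ, true_and] at hu ⊢
        exact φ.map_rel_iff.mpr hu
      · intro b hb
        simp only [Finset.mem_filter, Finset.mem_univ, true_and] at hb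
        refine ⟨φ.symm b, ?_, by simp⟩
        simp only [Finset.mem_filter, Finset.mem_univ, true_and]
        have : H.Adj (φ v) (φ (φ.symm b)) := by
          rw [φ.apply_symm_apply]; exact hb
        exact φ.map_rel_iff.mp this
    · intro w hw
      simp only [Finset.mem_filter, Finset.mem_univ, true_and] at hw
      refine ⟨φ.symm w, ?_, by simp⟩
      simp only [Finset.mem_filter, Finset.mem_univ, true_and]
      rw [← hw]
      refine Finset.card_bij (fun u _ => φ u) ?_ (fun a _ b _ h => φ.injective h) ?_
      · intro u hu
        simp only [Finset.mem_filter, Finset.mem_univ, true_and] at hu ⊢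
        have : H.Adj (φ (φ.symm w)) (φ u) := φ.map_rel_iff.mpr hu
        rw [φ.apply_symm_apply] at this
        exact this
      · intro b hb
        simp only [Finset.mem_filter, Finset.mem_univ, true_and] at hb
        refine ⟨φ.symm b, ?_, by simp⟩
        simp only [Finset.mem_filter, Finset.mem_univ, true_and]
        have : H.Adj (φ (φ.symm w)) (φ (φ.symm b)) := by
          rw [φ.apply_symm_apply, φ.apply_symm_apply]; exact hb
        exact φ.map_rel_iff.mp this
  rw [card_G, card_H] at h
  omega

end Pool.Agent.H253R3
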