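import Pool.Agent.H253R3.Defs

set_option autoImplicit false

namespace Pool.Agent.H253R3

/-- integer coordinates of the special placement -/
def pz (v : Fin 15) : Fin 3 → ℤ :=
  match v with
  | 0 => ![1, 0, 0]
  | 1 => ![0, 1, 0]
  | 2 => ![0, 0, 1]
  | 3 => ![0, 0, -1]
  | 4 => ![0, -1, 0]
  | 5 => ![-1, 0, 0]
  | 6 => ![0, 0, 0]
  | 7 => ![1, 1, 1]
  | 8 => ![1, 1, 1]
  | 9 => ![0, 0, 0]
  | 10 => ![1, -1, -1]
  | 11 => ![0, 0, 0]
  | 12 => ![-1, 1, -1]
  | 13 => ![0, 0, 0]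
  | 14 => ![-1, -1, 1]

/-- the special placement -/
def p0 (v : Fin 15) (k : Fin 3) : ℝ := (pz v k : ℝ)

/-- cross product -/
def cr (a v : Fin 3 → ℝ) : Fin 3 → ℝ :=
  ![a 1 * v 2 - a 2 * v 1, a 2 * v 0 - a 0 * v 2, a 0 * v 1 - a 1 * v 0]

/-- affine dependencies of the five-cliques -/
def lam (T : Fin 5) (v : Fin 15) : ℤ :=
  match T with
  | 0 => ![1, 1, 1, 0, 0, 0, -2, -1, 0, 0, 0, 0, 0, 0, 0] v
  | 1 => ![1, 1, 1, 0, 0, 0, -2, 0, -1, 0, 0, 0, 0, 0, 0] v
  | 2 => ![1, 0, 0, 1, 1, 0, 0, 0, 0, -2, -1, 0, 0, 0, 0] v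
  | 3 => ![0, 1, 0, 1, 0, 1, 0, 0, 0, 0, 0, -2, -1, 0, 0] v
  | 4 => ![0, 0, 1, 0, 1, 1, 0, 0, 0, 0, 0, 0, 0, -2, -1] v

theorem lam_sum : ∀ T, ∑ v, lam T v = 0 := by decide

theorem lam_p : ∀ T k, ∑ v, lam T v * pz v k = 0 := by decide

theorem lam_adj : ∀ T a b, a ≠ b → lam T a ≠ 0 → lam T b ≠ 0 → adjG a b = true := by decide

theorem adj_lam : ∀ a b, adjG a b = true → ∃ T, lam T a ≠ 0 ∧ lam T b ≠ 0 := by decide

/-- the linearised squared length -/
def cc (v : Fin 15 → Fin 3 → ℝ) (a b : Fin 15) : ℝ :=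
  ∑ k, (p0 a k - p0 b k) * (v a k - v b k)

theorem cc_symm (v : Fin 15 → Fin 3 → ℝ) (a b : Fin 15) : cc v a b = cc v b a := by
  unfold cc
  refine Finset.sum_congr rfl fun k _ => ?_
  ring

theorem cc_self (v : Fin 15 → Fin 3 → ℝ) (a : Fin 15) : cc v a a = 0 := by
  unfold cc
  simp

theorem stress (v : Fin 15 → Fin 3 → ℝ) (T : Fin 5) :
    ∑ a, ∑ b, (lam T a : ℝ) * (lam T b : ℝ) * cc v a b = 0 := by
  have hs : ∑ a, (lam T a : ℝ) = 0 := by exact_mod_cast lam_sum T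
  have hp : ∀ k, ∑ a, (lam T a : ℝ) * p0 a k = 0 := by
    intro k
    have := lam_p T k
    unfold p0
    exact_mod_cast this
  have e1 : ∀ a b, (lam T a : ℝ) * (lam T b : ℝ) * cc v a b =
      ∑ k, ((lam T a : ℝ) * (lam T b * (p0 a k * v a k)) -
        ((lam T a * p0 a k) * (lam T b * v b k)) -
        ((lam T a * v a k) * (lam T b * p0 b k)) + (lam T a : ℝ) * (lam T b * (p0 b k * v b k))) := by
    intro a b
    unfold cc
    rw [Finset.mul_sum]
    refine Finset.sum_congr rfl fun k _ => ?_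
    ring
  simp only [e1]
  have e2 : ∀ a, ∑ b, ∑ k, ((lam T a : ℝ) * (lam T b * (p0 a k * v a k)) -
        ((lam T a * p0 a k) * (lam T b * v b k)) -
        ((lam T a * v a k) * (lam T b * p0 b k)) + (lam T a : ℝ) * (lam T b * (p0 b k * v b k))) =
      ∑ k, ∑ b, ((lam T a : ℝ) * (lam T b * (p0 a k * v a k)) -
        ((lam T a * p0 a k) * (lam T b * v b k)) -
        ((lam T a * v a k) * (lam T b * p0 b k)) +
        (lam T a : ℝ) * (lam T b * (p0 b k * v b k))) := fun a => Finset.sum_comm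
  simp only [e2]
  rw [Finset.sum_comm]
  refine Finset.sum_eq_zero fun k _ => ?_
  simp only [Finset.sum_add_distrib, Finset.sum_sub_distrib, ← Finset.mul_sum, ← Finset.sum_mul]
  rw [hs, hp k]
  simp

theorem all_of_minus (v : Fin 15 → Fin 3 → ℝ) (e : Sym2 (Fin 15))
    (h : ∀ a b, adjG a b = true → s(a, b) ≠ e → cc v a b = 0) :
    ∀ a b, adjG a b = true → cc v a b = 0 := by
  intro a0 b0 hab
  by_cases he : s(a0, b0) = e
  · obtain ⟨T, ha, hb⟩ := adj_lam a0 b0 hab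
    have hne : a0 ≠ b0 := by
      rintro rfl
      exact G.loopless.irrefl a0 hab
    have hst := stress v T
    rw [← Finset.sum_product'] at hst
    have hsub : ∑ x ∈ (Finset.univ ×ˢ Finset.univ : Finset (Fin 15 × Fin 15)),
        (lam T x.1 : ℝ) * (lam T x.2 : ℝ) * cc v x.1 x.2 =
        ∑ x ∈ ({(a0, b0), (b0, a0)} : Finset (Fin 15 × Fin 15)),
        (lam T x.1 : ℝ) * (lam T x.2 : ℝ) * cc v x.1 x.2 := by
      symm
      refine Finset.sum_subset (by simp) ?_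
      rintro ⟨a, b⟩ _ hx
      simp only [Finset.mem_insert, Finset.mem_singleton, Prod.mk.injEq, not_or] at hx
      by_cases hla : lam T a = 0
      · simp [hla]
      by_cases hlb : lam T b = 0
      · simp [hlb]
      by_cases heq : a = b
      · subst heq
        simp [cc_self]
      have hadj := lam_adj T a b heq hla hlb
      have : s(a, b) ≠ e := by
        rw [← he]
        intro h'
        rw [Sym2.eq_iff] at h'
        rcases h' with h' | h'
        · exact hx.1 h'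
        · exact hx.2 h'
      rw [h a b hadj this]
      ring
    rw [hsub, Finset.sum_pair (by
      intro h'
      rw [Prod.mk.injEq] at h'
      exact hne h'.1)] at hst
    simp only at hst
    rw [cc_symm v b0 a0] at hst
    have h2 : (lam T a0 : ℝ) * (lam T b0 : ℝ) ≠ 0 :=
      mul_ne_zero (by exact_mod_cast ha) (by exact_mod_cast hb)
    have h3 : (2 * ((lam T a0 : ℝ) * (lam T b0 : ℝ))) * cc v a0 b0 = 0 := by linarith
    rcases mul_eq_zero.mp h3 with h4 | h4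
    · exfalso
      apply h2
      linarith
    · exact h4
  · exact h a0 b0 hab he

/-- the twelve joint equations force all the body motions to agree -/
theorem oct_inj (a0 a1 a2 a3 t0 t1 t2 t3 : Fin 3 → ℝ)
    (h01 : ∀ k, cr a0 (p0 0) k + t0 k = cr a1 (p0 0) k + t1 k)
    (h02 : ∀ k, cr a0 (p0 1) k + t0 k = cr a2 (p0 1) k + t2 k)
    (h03 : ∀ k, cr a0 (p0 2) k + t0 k = cr a3 (p0 2) k + t3 k)
    (h12 : ∀ k, cr a1 (p0 3) k + t1 k = cr a2 (p0 3) k + t2 k)
    (h13 : ∀ k, cr a1 (p0 4) k + t1 k = cr a3 (p0 4) k + t3 k)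
    (h23 : ∀ k, cr a2 (p0 5) k + t2 k = cr a3 (p0 5) k + t3 k) :
    (a1 = a0 ∧ a2 = a0 ∧ a3 = a0) ∧ (t1 = t0 ∧ t2 = t0 ∧ t3 = t0) := by
  have A0 := h01 0; have A1 := h01 1; have A2 := h01 2
  have B0 := h02 0; have B1 := h02 1; have B2 := h02 2
  have C0 := h03 0; have C1 := h03 1; have C2 := h03 2
  have D0 := h12 0; have D1 := h12 1; have D2 := h12 2
  have E0 := h13 0; have E1 := h13 1; have E2 := h13 2
  have F0 := h23 0; have F1 := h23 1; have F2 := h23 2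
  clear h01 h02 h03 h12 h13 h23
  simp [cr, p0, pz] at A0 A1 A2 B0 B1 B2 C0 C1 C2 D0 D1 D2 E0 E1 E2 F0 F1 F2
  refine ⟨⟨?_, ?_, ?_⟩, ?_, ?_, ?_⟩ <;>
  · funext k
    fin_cases k <;> simp <;> linarith

end Pool.Agent.H253R3
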