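import Pool.Agent.H253R3.Surj

set_option autoImplicit false
open scoped Topology

namespace Pool.Agent.H253R3

/-- rotation attached to the quaternion `(1, a)` -/
noncomputable def rot (a v : Fin 3 → ℝ) : Fin 3 → ℝ := fun k =>
  v k + 2 / (1 + (a 0 ^ 2 + a 1 ^ 2 + a 2 ^ 2)) * (cr a v k + cr a (cr a v) k)

theorem rot_isom (a u v : Fin 3 → ℝ) :
    ∑ k, (rot a u k - rot a v k) ^ 2 = ∑ k, (u k - v k) ^ 2 := by
  have hN : (1 + (a 0 ^ 2 + a 1 ^ 2 + a 2 ^ 2) : ℝ) ≠ 0 := by positivity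
  simp only [Fin.sum_univ_three, rot, cr]
  simp
  field_simp
  ring

abbrev Y : Type := Fin 4 × Fin 15 × Fin 3 → ℝ
abbrev X : Type := (Fin 4 → Fin 3 → ℝ) × (Fin 4 → Fin 3 → ℝ) × (Fin 15 → Fin 3 → ℝ) × Y

/-- the gluing map -/
noncomputable def Phi (x : X) : Y := fun b =>
  if inB b.1 b.2.1 = true then rot (x.1 b.1) (x.2.2.1 b.2.1) b.2.2 + x.2.1 b.1 b.2.2
  else x.2.2.2 b

theorem cr_contDiff {A V : X → Fin 3 → ℝ} (hA : ContDiff ℝ ⊤ A) (hV : ContDiff ℝ ⊤ V) :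
    ContDiff ℝ ⊤ (fun x => cr (A x) (V x)) := by
  have hA' : ∀ k, ContDiff ℝ ⊤ (fun x => A x k) := fun k => (contDiff_pi.mp hA) k
  have hV' : ∀ k, ContDiff ℝ ⊤ (fun x => V x k) := fun k => (contDiff_pi.mp hV) k
  rw [contDiff_pi]
  intro k
  fin_cases k
  · exact ((hA' 1).mul (hV' 2)).sub ((hA' 2).mul (hV' 1))
  · exact ((hA' 2).mul (hV' 0)).sub ((hA' 0).mul (hV' 2))
  · exact ((hA' 0).mul (hV' 1)).sub ((hA' 1).mul (hV' 0))

theorem Phi_contDiff : ContDiff ℝ ⊤ Phi := by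
  rw [contDiff_pi]
  rintro ⟨i, v, k⟩
  unfold Phi
  by_cases h : inB i v = true
  · simp only [h, if_true]
    have hA : ContDiff ℝ ⊤ (fun x : X => x.1 i) := by fun_prop
    have hV : ContDiff ℝ ⊤ (fun x : X => x.2.2.1 v) := by fun_prop
    have hA' : ∀ k, ContDiff ℝ ⊤ (fun x : X => x.1 i k) := fun k => (contDiff_pi.mp hA) k
    have hV' : ∀ k, ContDiff ℝ ⊤ (fun x : X => x.2.2.1 v k) := fun k => (contDiff_pi.mp hV) k
    have hT : ContDiff ℝ ⊤ (fun x : X => x.2.1 i k) := by fun_prop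
    have hc := cr_contDiff hA hV
    have hcc := cr_contDiff hA hc
    have hc' : ContDiff ℝ ⊤ (fun x : X => cr (x.1 i) (x.2.2.1 v) k) := (contDiff_pi.mp hc) k
    have hcc' : ContDiff ℝ ⊤ (fun x : X => cr (x.1 i) (cr (x.1 i) (x.2.2.1 v)) k) :=
      (contDiff_pi.mp hcc) k
    unfold rot
    refine ContDiff.add (ContDiff.add (hV' k) (ContDiff.mul ?_ (hc'.add hcc'))) hT
    refine ContDiff.div contDiff_const ?_ ?_
    · exact contDiff_const.add ((((hA' 0).pow 2).add ((hA' 1).pow 2)).add ((hA' 2).pow 2))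
    · intro x
      positivity
  · simp only [if_neg h]
    fun_prop

/-- the base point -/
def x0 : X := (0, 0, p0, 0)

theorem rot_line (a w u : Fin 3 → ℝ) (k : Fin 3) :
    HasDerivAt (fun τ : ℝ => rot (τ • a) (w + τ • u) k) (u k + 2 * cr a w k) 0 := by
  have e : ∀ τ : ℝ, rot (τ • a) (w + τ • u) k = w k + τ * (u k +
      2 / (1 + τ ^ 2 * (a 0 ^ 2 + a 1 ^ 2 + a 2 ^ 2)) *
        ((cr a w k + τ * cr a u k) + τ * (cr a (cr a w) k + τ * cr a (cr a u) k))) := by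
    intro τ
    have hN : (1 + τ ^ 2 * (a 0 ^ 2 + a 1 ^ 2 + a 2 ^ 2) : ℝ) ≠ 0 := by positivity
    have hN' : (1 + (τ ^ 2 * a 0 ^ 2 + τ ^ 2 * a 1 ^ 2 + τ ^ 2 * a 2 ^ 2) : ℝ) =
      1 + τ ^ 2 * (a 0 ^ 2 + a 1 ^ 2 + a 2 ^ 2) := by ring
    unfold rot
    simp only [Pi.smul_apply, Pi.add_apply, smul_eq_mul, mul_pow]
    rw [hN']
    fin_cases k <;> simp [cr] <;> ring
  have e' : (fun τ : ℝ => rot (τ • a) (w + τ • u) k) = fun τ => w k + τ * (u k +
      2 / (1 + τ ^ 2 * (a 0 ^ 2 + a 1 ^ 2 + a 2 ^ 2)) *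
        ((cr a w k + τ * cr a u k) + τ * (cr a (cr a w) k + τ * cr a (cr a u) k))) := funext e
  rw [e']
  have hd : DifferentiableAt ℝ (fun τ : ℝ => (u k +
      2 / (1 + τ ^ 2 * (a 0 ^ 2 + a 1 ^ 2 + a 2 ^ 2)) *
        ((cr a w k + τ * cr a u k) + τ * (cr a (cr a w) k + τ * cr a (cr a u) k)))) 0 := by
    have hN : (1 + (0 : ℝ) ^ 2 * (a 0 ^ 2 + a 1 ^ 2 + a 2 ^ 2) : ℝ) ≠ 0 := by positivity
    fun_prop (disch := exact hN)
  have h1 := ((hasDerivAt_id (0 : ℝ)).mul hd.hasDerivAt).const_add (w k)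
  refine h1.congr_deriv ?_
  simp

theorem Phi_line (x : X) : HasDerivAt (fun τ : ℝ => Phi (x0 + τ • x))
    (fun b => if inB b.1 b.2.1 = true then
      x.2.2.1 b.2.1 b.2.2 + 2 * cr (x.1 b.1) (p0 b.2.1) b.2.2 + x.2.1 b.1 b.2.2
      else x.2.2.2 b) 0 := by
  rw [hasDerivAt_pi]
  rintro ⟨i, v, k⟩
  by_cases h : inB i v = true
  · simp only [Phi, h, if_true]
    have h1 := rot_line (x.1 i) (p0 v) (x.2.2.1 v) k
    have h2 : HasDerivAt (fun τ : ℝ => τ * x.2.1 i k) (x.2.1 i k) 0 := by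
      simpa using (hasDerivAt_id (0 : ℝ)).mul_const (x.2.1 i k)
    have h3 := h1.add h2
    have e : (fun τ : ℝ => rot ((x0 + τ • x).1 i) ((x0 + τ • x).2.2.1 v) k +
        (x0 + τ • x).2.1 i k) = (fun τ : ℝ => rot (τ • x.1 i) (p0 v + τ • x.2.2.1 v) k) +
        (fun τ : ℝ => τ * x.2.1 i k) := by
      funext τ
      simp [x0]
    rw [e]
    exact h3
  · simp only [Phi, if_neg h]
    have h2 : HasDerivAt (fun τ : ℝ => τ * x.2.2.2 (i, v, k)) (x.2.2.2 (i, v, k)) 0 := by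
      simpa using (hasDerivAt_id (0 : ℝ)).mul_const (x.2.2.2 (i, v, k))
    have e : (fun τ : ℝ => (x0 + τ • x).2.2.2 (i, v, k)) =
        (fun τ : ℝ => τ * x.2.2.2 (i, v, k)) := by
      funext τ
      simp [x0]
    rw [e]
    exact h2

theorem Phi_open : Set.range Phi ∈ 𝓝 (Phi x0) := by
  have hs : HasStrictFDerivAt Phi (fderiv ℝ Phi x0) x0 :=
    (Phi_contDiff.contDiffAt).hasStrictFDerivAt (by simp)
  have hsurj : (fderiv ℝ Phi x0).range = ⊤ := by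
    rw [LinearMap.range_eq_top]
    intro y
    obtain ⟨a, t, p, h⟩ := lin_surj (fun i v k => y (i, v, k))
    refine ⟨(a, t, p, y), ?_⟩
    have hl : HasDerivAt (fun τ : ℝ => x0 + τ • ((a, t, p, y) : X)) ((a, t, p, y) : X) 0 := by
      have := ((hasDerivAt_id (0 : ℝ)).smul_const ((a, t, p, y) : X)).const_add x0
      simpa using this
    have h1 : HasDerivAt (fun τ : ℝ => Phi (x0 + τ • ((a, t, p, y) : X)))
        (fderiv ℝ Phi x0 ((a, t, p, y) : X)) 0 := by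
      have h0 : HasFDerivAt Phi (fderiv ℝ Phi x0) (x0 + (0 : ℝ) • ((a, t, p, y) : X)) := by
        rw [zero_smul, add_zero]
        exact hs.hasFDerivAt
      exact h0.comp_hasDerivAt 0 hl
    have h2 := Phi_line ((a, t, p, y) : X)
    have h3 := h1.unique h2
    refine h3.trans ?_
    funext ⟨i, v, k⟩
    by_cases hb : inB i v = true
    · simp only [hb, if_true]
      exact h i v hb k
    · simp only [if_neg hb]
  have := hs.map_nhds_eq_of_surj hsurj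
  rw [← this]
  exact Filter.mem_map.mpr (Filter.univ_mem' (fun x => ⟨x, rfl⟩))

end Pool.Agent.H253R3
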