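import Pool.Agent.H253R3.Rigid

set_option autoImplicit false
open Classical

namespace Pool.Agent.H253R3

/-- the trivial motions, as a linear map -/
noncomputable def triv (q : Fin 15 → Fin 3 → ℝ) :
    ((Fin 3 → ℝ) × (Fin 3 → ℝ)) →ₗ[ℝ] (Fin 15 × Fin 3 → ℝ) where
  toFun x := fun b => cr x.1 (q b.1) b.2 + x.2 b.2
  map_add' x y := by
    funext ⟨i, k⟩
    fin_cases k <;> simp [cr] <;> ring
  map_smul' c x := by
    funext ⟨i, k⟩
    fin_cases k <;> simp [cr] <;> ring

/-- every placement of the complete graph has a space of infinitesimal motions of dimension at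
least six -/
theorem six_le (q : Fin 15 → Fin 3 → ℝ) (K : Submodule ℝ (Fin 15 × Fin 3 → ℝ))
    (hK : ∀ v : Fin 15 × Fin 3 → ℝ,
      (∀ i j, ∑ k, (q i k - q j k) * (v (i, k) - v (j, k)) = 0) → v ∈ K) :
    6 ≤ Module.finrank ℝ K := by
  by_cases hcol : ∃ u : Fin 3 → ℝ, u ≠ 0 ∧ ∀ i, ∃ c : ℝ, ∀ k, q i k - q 0 k = c * u k
  · obtain ⟨u, hu, hc⟩ := hcol
    choose c hc using hc
    -- vectors orthogonal to `u` at vertices 0, 1, 2
    have hw : ∃ w1 w2 : Fin 3 → ℝ, (∑ k, u k * w1 k = 0) ∧ (∑ k, u k * w2 k = 0) ∧
        ∀ s t : ℝ, (∀ k, s * w1 k + t * w2 k = 0) → s = 0 ∧ t = 0 := by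
      by_cases h0 : u 0 = 0
      · by_cases h1 : u 1 = 0
        · have h2 : u 2 ≠ 0 := by
            intro h2
            apply hu
            funext k
            fin_cases k <;> simp [h0, h1, h2]
          refine ⟨![1, 0, 0], ![0, 1, 0], by simp [Fin.sum_univ_three, h0],
            by simp [Fin.sum_univ_three, h1], ?_⟩
          intro s t h
          have a := h 0
          have b := h 1
          simp at a b
          exact ⟨a, b⟩
        · refine ⟨![1, 0, 0], ![0, -(u 2), u 1], by simp [Fin.sum_univ_three, h0],
            by simp [Fin.sum_univ_three]; ring, ?_⟩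
          intro s t h
          have a := h 0
          have b := h 2
          simp at a b
          exact ⟨a, b.resolve_right h1⟩
      · refine ⟨![-(u 1), u 0, 0], ![-(u 2), 0, u 0], by simp [Fin.sum_univ_three]; ring,
          by simp [Fin.sum_univ_three]; ring, ?_⟩
        intro s t h
        have a := h 1
        have b := h 2
        simp at a b
        exact ⟨a.resolve_right h0, b.resolve_right h0⟩
    obtain ⟨w1, w2, hw1, hw2, hind⟩ := hw
    let f : (Fin 3 → ℝ × ℝ) →ₗ[ℝ] (Fin 15 × Fin 3 → ℝ) :=
      { toFun := fun x b => if h : b.1.val < 3 then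
          (x ⟨b.1.val, h⟩).1 * w1 b.2 + (x ⟨b.1.val, h⟩).2 * w2 b.2 else 0
        map_add' := by
          intro x y
          funext b
          by_cases h : b.1.val < 3
          · simp only [h, dif_pos, Pi.add_apply, Prod.fst_add, Prod.snd_add]; ring
          · simp [h]
        map_smul' := by
          intro s x
          funext b
          by_cases h : b.1.val < 3
          · simp only [h, dif_pos, Pi.smul_apply, Prod.smul_fst, Prod.smul_snd, smul_eq_mul,
              RingHom.id_apply]; ring
          · simp [h] }
    have hf : Function.Injective f := by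
      rw [injective_iff_map_eq_zero]
      intro x hx
      funext m
      have h1 : ∀ k, (x m).1 * w1 k + (x m).2 * w2 k = 0 := by
        intro k
        have := congrFun hx (⟨m.val, by omega⟩, k)
        simpa [f] using this
      obtain ⟨a, b⟩ := hind _ _ h1
      exact Prod.ext a b
    have hle : LinearMap.range f ≤ K := by
      rintro _ ⟨x, rfl⟩
      apply hK
      intro i j
      have hperp : ∀ (i : Fin 15), ∑ k, u k * (f x (i, k)) = 0 := by
        intro i
        by_cases h : i.val < 3
        · have e : ∀ k, u k * f x (i, k) = (x ⟨i.val, h⟩).1 * (u k * w1 k) +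
              (x ⟨i.val, h⟩).2 * (u k * w2 k) := by
            intro k
            simp only [f, LinearMap.coe_mk, AddHom.coe_mk, h, dif_pos]
            ring
          simp only [e, Finset.sum_add_distrib, ← Finset.mul_sum, hw1, hw2]
          ring
        · simp [f, h]
      have e : ∀ k, (q i k - q j k) * (f x (i, k) - f x (j, k)) =
          (c i - c j) * (u k * f x (i, k)) - (c i - c j) * (u k * f x (j, k)) := by
        intro k
        have h1 := hc i k
        have h2 := hc j k
        have h3 : q i k - q j k = (c i - c j) * u k := by linarith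
        rw [h3]; ring
      simp only [e, Finset.sum_sub_distrib, ← Finset.mul_sum, hperp]
      ring
    calc 6 = Module.finrank ℝ (Fin 3 → ℝ × ℝ) := by
            rw [Module.finrank_pi_fintype]; simp
      _ = Module.finrank ℝ (LinearMap.range f) := (LinearMap.finrank_range_of_inj hf).symm
      _ ≤ _ := Submodule.finrank_mono hle
  · push Not at hcol
    have hinj : Function.Injective (triv q) := by
      rw [injective_iff_map_eq_zero]
      rintro ⟨a, t⟩ hx
      have hx' : ∀ i k, cr a (q i) k + t k = 0 := fun i k => congrFun hx (i, k)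
      by_cases ha : a = 0
      · subst ha
        have hz : ∀ k, cr (0 : Fin 3 → ℝ) (q 0) k = 0 := by
          intro k
          fin_cases k
          · simp [cr]
          · simp [cr]
          · simp [cr]
        have : t = 0 := by
          funext k
          have h1 := hx' 0 k
          rw [hz k] at h1
          simpa using h1
        rw [this]; rfl
      · exfalso
        obtain ⟨i, hi⟩ := hcol a ha
        have hcr : ∀ k, cr a (fun k => q i k - q 0 k) k = 0 := by
          intro k
          have h1 := hx' i k
          have h2 := hx' 0 k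
          fin_cases k <;> simp [cr] at h1 h2 ⊢ <;> linarith
        have c0 := hcr 0
        have c1 := hcr 1
        have c2 := hcr 2
        simp [cr] at c0 c1 c2
        -- the difference is parallel to `a`
        have hpar : ∃ c : ℝ, ∀ k, q i k - q 0 k = c * a k := by
          by_cases h0 : a 0 = 0
          · by_cases h1 : a 1 = 0
            · have h2 : a 2 ≠ 0 := by
                intro h2
                apply ha
                funext k
                fin_cases k <;> simp [h0, h1, h2]
              refine ⟨(q i 2 - q 0 2) / a 2, ?_⟩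
              intro k
              fin_cases k
              · simp [h0, h1] at c1 ⊢
                exact c1.resolve_left h2
              · simp [h0, h1] at c0 ⊢
                exact c0.resolve_left h2
              · simp; field_simp
            · refine ⟨(q i 1 - q 0 1) / a 1, ?_⟩
              intro k
              fin_cases k
              · simp; field_simp; linarith
              · simp; field_simp
              · simp; field_simp; linarith
          · refine ⟨(q i 0 - q 0 0) / a 0, ?_⟩
            intro k
            fin_cases k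
            · simp; field_simp
            · simp; field_simp; linarith
            · simp; field_simp; linarith
        obtain ⟨c, hc⟩ := hpar
        obtain ⟨k, hk⟩ := hi c
        exact hk (hc k)
    have hle : LinearMap.range (triv q) ≤ K := by
      rintro _ ⟨x, rfl⟩
      apply hK
      intro i j
      simp only [triv, LinearMap.coe_mk, AddHom.coe_mk, Fin.sum_univ_three, cr]
      simp
      ring
    calc 6 = Module.finrank ℝ ((Fin 3 → ℝ) × (Fin 3 → ℝ)) := by simp
      _ = Module.finrank ℝ (LinearMap.range (triv q)) := (LinearMap.finrank_range_of_inj hinj).symm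
      _ ≤ _ := Submodule.finrank_mono hle

/-- the rank condition of the frozen statement -/
theorem rank_cond : ∀ e : Sym2 (Fin 15), e ∈ G.edgeSet →
    ∃ p : Fin 15 → Fin 3 → ℝ, ∀ q : Fin 15 → Fin 3 → ℝ,
          Matrix.rank (Matrix.of fun (a : Fin 15 × Fin 15) (b : Fin 15 × Fin 3) =>
              if a.1 ≠ a.2 then
                ((if b.1 = a.1 then (1 : ℝ) else 0) - (if b.1 = a.2 then (1 : ℝ) else 0))
                  * (q a.1 b.2 - q a.2 b.2)
              else (0 : ℝ)) ≤
          Matrix.rank (Matrix.of fun (a : Fin 15 × Fin 15) (b : Fin 15 × Fin 3) =>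
              if G.Adj a.1 a.2 ∧ s(a.1, a.2) ≠ e then
                ((if b.1 = a.1 then (1 : ℝ) else 0) - (if b.1 = a.2 then (1 : ℝ) else 0))
                  * (p a.1 b.2 - p a.2 b.2)
              else (0 : ℝ)) := by
  intro e _
  refine ⟨p0, fun q => ?_⟩
  -- evaluate a row on a vector
  have row : ∀ (p : Fin 15 → Fin 3 → ℝ) (i j : Fin 15) (v : Fin 15 × Fin 3 → ℝ),
      ∑ b : Fin 15 × Fin 3, (((if b.1 = i then (1 : ℝ) else 0) - (if b.1 = j then (1 : ℝ) else 0))
                  * (p i b.2 - p j b.2)) * v b =
        ∑ k, (p i k - p j k) * (v (i, k) - v (j, k)) := by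
    intro p i j v
    rw [Fintype.sum_prod_type]
    have e1 : ∀ x : Fin 15, ∑ k : Fin 3, (((if x = i then (1 : ℝ) else 0) -
        (if x = j then (1 : ℝ) else 0)) * (p i k - p j k)) * v (x, k) =
        (if x = i then ∑ k : Fin 3, (p i k - p j k) * v (x, k) else 0) -
        (if x = j then ∑ k : Fin 3, (p i k - p j k) * v (x, k) else 0) := by
      intro x
      have e0 : ∀ k : Fin 3, (((if x = i then (1 : ℝ) else 0) -
        (if x = j then (1 : ℝ) else 0)) * (p i k - p j k)) * v (x, k) =
        (if x = i then (p i k - p j k) * v (x, k) else 0) -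
        (if x = j then (p i k - p j k) * v (x, k) else 0) := by
        intro k
        split_ifs <;> ring
      simp only [e0, Finset.sum_sub_distrib]
      split_ifs <;> simp
    simp only [e1, Finset.sum_sub_distrib, Finset.sum_ite_eq', Finset.mem_univ, if_true]
    rw [← Finset.sum_sub_distrib]
    refine Finset.sum_congr rfl fun k _ => ?_
    ring
  have up : ∀ M : Matrix (Fin 15 × Fin 15) (Fin 15 × Fin 3) ℝ,
      M.rank + Module.finrank ℝ (LinearMap.ker M.mulVecLin) = 45 := by
    intro M
    have := LinearMap.finrank_range_add_finrank_ker M.mulVecLin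
    rw [Matrix.rank, this]
    simp
  have h1 : 6 ≤ Module.finrank ℝ (LinearMap.ker (Matrix.mulVecLin
      (Matrix.of fun (a : Fin 15 × Fin 15) (b : Fin 15 × Fin 3) =>
              if a.1 ≠ a.2 then
                ((if b.1 = a.1 then (1 : ℝ) else 0) - (if b.1 = a.2 then (1 : ℝ) else 0))
                  * (q a.1 b.2 - q a.2 b.2)
              else (0 : ℝ)))) := by
    apply six_le q
    intro v hv
    rw [LinearMap.mem_ker]
    funext a
    simp only [Matrix.mulVecLin_apply, Matrix.mulVec, dotProduct, Matrix.of_apply, Pi.zero_apply]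
    by_cases ha : a.1 ≠ a.2
    · simp only [if_pos ha]
      rw [row q a.1 a.2 v]
      exact hv a.1 a.2
    · simp only [if_neg ha]
      simp
  have h2 : Module.finrank ℝ (LinearMap.ker (Matrix.mulVecLin
      (Matrix.of fun (a : Fin 15 × Fin 15) (b : Fin 15 × Fin 3) =>
              if G.Adj a.1 a.2 ∧ s(a.1, a.2) ≠ e then
                ((if b.1 = a.1 then (1 : ℝ) else 0) - (if b.1 = a.2 then (1 : ℝ) else 0))
                  * (p0 a.1 b.2 - p0 a.2 b.2)
              else (0 : ℝ)))) ≤ 6 := by
    have hle : LinearMap.ker (Matrix.mulVecLin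
      (Matrix.of fun (a : Fin 15 × Fin 15) (b : Fin 15 × Fin 3) =>
              if G.Adj a.1 a.2 ∧ s(a.1, a.2) ≠ e then
                ((if b.1 = a.1 then (1 : ℝ) else 0) - (if b.1 = a.2 then (1 : ℝ) else 0))
                  * (p0 a.1 b.2 - p0 a.2 b.2)
              else (0 : ℝ))) ≤ LinearMap.range (triv p0) := by
      intro v hv
      rw [LinearMap.mem_ker] at hv
      have hcc := all_of_minus (fun i k => v (i, k)) e (by
        intro a b hab hne
        have := congrFun hv (a, b)
        simp only [Matrix.mulVecLin_apply, Matrix.mulVec, dotProduct, Matrix.of_apply,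
          Pi.zero_apply] at this
        have hc : G.Adj a b ∧ s(a, b) ≠ e := ⟨hab, hne⟩
        simp only [if_pos hc] at this
        rw [row p0 a b v] at this
        exact this)
      obtain ⟨α, t, h⟩ := rigidG _ hcc
      refine ⟨(α, t), ?_⟩
      funext ⟨i, k⟩
      exact (h i k).symm
    calc _ ≤ Module.finrank ℝ (LinearMap.range (triv p0)) := Submodule.finrank_mono hle
      _ ≤ Module.finrank ℝ ((Fin 3 → ℝ) × (Fin 3 → ℝ)) := LinearMap.finrank_range_le _
      _ = 6 := by simp
  have u1 := up (Matrix.of fun (a : Fin 15 × Fin 15) (b : Fin 15 × Fin 3) =>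
              if a.1 ≠ a.2 then
                ((if b.1 = a.1 then (1 : ℝ) else 0) - (if b.1 = a.2 then (1 : ℝ) else 0))
                  * (q a.1 b.2 - q a.2 b.2)
              else (0 : ℝ))
  have u2 := up (Matrix.of fun (a : Fin 15 × Fin 15) (b : Fin 15 × Fin 3) =>
              if G.Adj a.1 a.2 ∧ s(a.1, a.2) ≠ e then
                ((if b.1 = a.1 then (1 : ℝ) else 0) - (if b.1 = a.2 then (1 : ℝ) else 0))
                  * (p0 a.1 b.2 - p0 a.2 b.2)
              else (0 : ℝ))
  omega

end Pool.Agent.H253R3
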