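import Pool.Agent.H253R3.Lin

set_option autoImplicit false

namespace Pool.Agent.H253R3

theorem body0 (v : Fin 15 → Fin 3 → ℝ) (h : ∀ a b, adjG a b = true → cc v a b = 0) :
    ∃ α t : Fin 3 → ℝ, ∀ i, inB 0 i = true → ∀ k, v i k = cr α (p0 i) k + t k := by
  have h1 := h 0 1 (by decide)
  have h2 := h 0 2 (by decide)
  have h3 := h 0 6 (by decide)
  have h4 := h 0 7 (by decide)
  have h5 := h 1 2 (by decide)
  have h6 := h 1 6 (by decide)
  have h7 := h 1 7 (by decide)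
  have h8 := h 2 6 (by decide)
  have h9 := h 2 7 (by decide)
  have h10 := h 6 7 (by decide)
  have g4 := h 0 8 (by decide)
  have g7 := h 1 8 (by decide)
  have g9 := h 2 8 (by decide)
  have g10 := h 6 8 (by decide)
  clear h
  simp [cc, Fin.sum_univ_three, p0, pz] at h1 h2 h3 h4 h5 h6 h7 h8 h9 h10 g4 g7 g9 g10
  refine ⟨![v 1 2 - v 6 2, -(v 0 2 - v 6 2), v 0 1 - v 6 1], v 6, ?_⟩
  intro i hi k
  have hi' : i = 0 ∨ i = 1 ∨ i = 2 ∨ i = 6 ∨ i = 7 ∨ i = 8 := by revert hi; revert i; decide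
  rcases hi' with rfl | rfl | rfl | rfl | rfl | rfl <;> fin_cases k <;>
    simp [cr, p0, pz] <;> linarith

theorem body1 (v : Fin 15 → Fin 3 → ℝ) (h : ∀ a b, adjG a b = true → cc v a b = 0) :
    ∃ α t : Fin 3 → ℝ, ∀ i, inB 1 i = true → ∀ k, v i k = cr α (p0 i) k + t k := by
  have h1 := h 0 3 (by decide)
  have h2 := h 0 4 (by decide)
  have h3 := h 0 9 (by decide)
  have h4 := h 0 10 (by decide)
  have h5 := h 3 4 (by decide)
  have h6 := h 3 9 (by decide)
  have h7 := h 3 10 (by decide)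
  have h8 := h 4 9 (by decide)
  have h9 := h 4 10 (by decide)
  have h10 := h 9 10 (by decide)
  clear h
  simp [cc, Fin.sum_univ_three, p0, pz] at h1 h2 h3 h4 h5 h6 h7 h8 h9 h10
  refine ⟨![v 3 1 - v 9 1, -(v 0 2 - v 9 2), v 0 1 - v 9 1], v 9, ?_⟩
  intro i hi k
  have hi' : i = 0 ∨ i = 3 ∨ i = 4 ∨ i = 9 ∨ i = 10 := by revert hi; revert i; decide
  rcases hi' with rfl | rfl | rfl | rfl | rfl <;> fin_cases k <;>
    simp [cr, p0, pz] <;> linarith

theorem body2 (v : Fin 15 → Fin 3 → ℝ) (h : ∀ a b, adjG a b = true → cc v a b = 0) :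
    ∃ α t : Fin 3 → ℝ, ∀ i, inB 2 i = true → ∀ k, v i k = cr α (p0 i) k + t k := by
  have h1 := h 1 3 (by decide)
  have h2 := h 1 5 (by decide)
  have h3 := h 1 11 (by decide)
  have h4 := h 1 12 (by decide)
  have h5 := h 3 5 (by decide)
  have h6 := h 3 11 (by decide)
  have h7 := h 3 12 (by decide)
  have h8 := h 5 11 (by decide)
  have h9 := h 5 12 (by decide)
  have h10 := h 11 12 (by decide)
  clear h
  simp [cc, Fin.sum_univ_three, p0, pz] at h1 h2 h3 h4 h5 h6 h7 h8 h9 h10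
  refine ⟨![v 1 2 - v 11 2, -(v 3 0 - v 11 0), -(v 1 0 - v 11 0)], v 11, ?_⟩
  intro i hi k
  have hi' : i = 1 ∨ i = 3 ∨ i = 5 ∨ i = 11 ∨ i = 12 := by revert hi; revert i; decide
  rcases hi' with rfl | rfl | rfl | rfl | rfl <;> fin_cases k <;>
    simp [cr, p0, pz] <;> linarith

theorem body3 (v : Fin 15 → Fin 3 → ℝ) (h : ∀ a b, adjG a b = true → cc v a b = 0) :
    ∃ α t : Fin 3 → ℝ, ∀ i, inB 3 i = true → ∀ k, v i k = cr α (p0 i) k + t k := by
  have h1 := h 2 4 (by decide)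
  have h2 := h 2 5 (by decide)
  have h3 := h 2 13 (by decide)
  have h4 := h 2 14 (by decide)
  have h5 := h 4 5 (by decide)
  have h6 := h 4 13 (by decide)
  have h7 := h 4 14 (by decide)
  have h8 := h 5 13 (by decide)
  have h9 := h 5 14 (by decide)
  have h10 := h 13 14 (by decide)
  clear h
  simp [cc, Fin.sum_univ_three, p0, pz] at h1 h2 h3 h4 h5 h6 h7 h8 h9 h10
  refine ⟨![-(v 2 1 - v 13 1), v 2 0 - v 13 0, v 4 0 - v 13 0], v 13, ?_⟩
  intro i hi k
  have hi' : i = 2 ∨ i = 4 ∨ i = 5 ∨ i = 13 ∨ i = 14 := by revert hi; revert i; decide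
  rcases hi' with rfl | rfl | rfl | rfl | rfl <;> fin_cases k <;>
    simp [cr, p0, pz] <;> linarith

/-- `G` is infinitesimally rigid at `p0` -/
theorem rigidG (v : Fin 15 → Fin 3 → ℝ) (h : ∀ a b, adjG a b = true → cc v a b = 0) :
    ∃ α t : Fin 3 → ℝ, ∀ i k, v i k = cr α (p0 i) k + t k := by
  obtain ⟨a0, t0, h0⟩ := body0 v h
  obtain ⟨a1, t1, h1⟩ := body1 v h
  obtain ⟨a2, t2, h2⟩ := body2 v h
  obtain ⟨a3, t3, h3⟩ := body3 v h
  obtain ⟨⟨e1, e2, e3⟩, f1, f2, f3⟩ := oct_inj a0 a1 a2 a3 t0 t1 t2 t3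
    (fun k => by rw [← h0 0 (by decide), ← h1 0 (by decide)])
    (fun k => by rw [← h0 1 (by decide), ← h2 1 (by decide)])
    (fun k => by rw [← h0 2 (by decide), ← h3 2 (by decide)])
    (fun k => by rw [← h1 3 (by decide), ← h2 3 (by decide)])
    (fun k => by rw [← h1 4 (by decide), ← h3 4 (by decide)])
    (fun k => by rw [← h2 5 (by decide), ← h3 5 (by decide)])
  rw [e1, f1] at h1
  rw [e2, f2] at h2
  rw [e3, f3] at h3
  refine ⟨a0, t0, ?_⟩
  intro i k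
  have hcov : inB 0 i = true ∨ inB 1 i = true ∨ inB 2 i = true ∨ inB 3 i = true := by
    revert i; decide
  rcases hcov with h | h | h | h
  · exact h0 i h k
  · exact h1 i h k
  · exact h2 i h k
  · exact h3 i h k

end Pool.Agent.H253R3
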