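import Pool.Agent.H253R3.Decouple

set_option autoImplicit false
open MvPolynomial

namespace Pool.Agent.H253R3

/-- swap the vertices `0` and `7` -/
def tau : Equiv.Perm (Fin 15) := Equiv.swap 0 7

theorem tau_tau : ∀ u, tau (tau u) = u := by decide

theorem tau_in : ∀ u, inB 0 (tau u) = inB 0 u := by decide

/-- both ends in body `0` -/
def in0 (e : Sym2 (Fin 15)) : Bool :=
  Sym2.lift ⟨fun u v => inB 0 u && inB 0 v, fun u v => Bool.and_comm _ _⟩ e

/-- the regluing of edges -/
def F (e : Sym2 (Fin 15)) : Sym2 (Fin 15) := if in0 e = true then Sym2.map tau e else e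

theorem in0_mk (u v : Fin 15) : in0 s(u, v) = (inB 0 u && inB 0 v) := rfl

theorem F_F (e : Sym2 (Fin 15)) : F (F e) = e := by
  induction e with
  | h u v =>
    unfold F
    by_cases h : in0 s(u, v) = true
    · have h' : in0 (Sym2.map tau s(u, v)) = true := by
        rw [Sym2.map_mk, in0_mk, tau_in, tau_in, ← in0_mk]
        exact h
      rw [if_pos h, if_pos h', Sym2.map_mk, Sym2.map_mk, tau_tau, tau_tau]
    · rw [if_neg h, if_neg h]

theorem adj_tau : ∀ u v, (inB 0 u && inB 0 v) = true → adjG u v = adjH (tau u) (tau v) := by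
  decide

theorem adj_ntau : ∀ u v, (inB 0 u && inB 0 v) = false → adjG u v = adjH u v := by
  decide

theorem F_mem (e : Sym2 (Fin 15)) : e ∈ G.edgeSet ↔ F e ∈ H.edgeSet := by
  induction e with
  | h u v =>
    unfold F
    by_cases h : in0 s(u, v) = true
    · rw [if_pos h, Sym2.map_mk, SimpleGraph.mem_edgeSet, SimpleGraph.mem_edgeSet]
      change adjG u v = true ↔ adjH (tau u) (tau v) = true
      rw [adj_tau u v h]
    · rw [if_neg h, SimpleGraph.mem_edgeSet, SimpleGraph.mem_edgeSet]
      change adjG u v = true ↔ adjH u v = true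
      rw [adj_ntau u v (by rw [in0_mk] at h; simpa using h)]

/-- the bijection of edges -/
def sig : G.edgeSet ≃ H.edgeSet :=
  Equiv.subtypeEquiv ⟨F, F, F_F, F_F⟩ F_mem

theorem sig_val (e : G.edgeSet) : (sig e).1 = F e.1 := rfl

theorem sig_symm_val (e : H.edgeSet) : (sig.symm e).1 = F e.1 := rfl

/-- twisting a decoupled configuration -/
def tw (P : Fin 4 → Fin 15 → Fin 3 → ℂ) : Fin 4 → Fin 15 → Fin 3 → ℂ :=
  fun i v => if i = 0 then P 0 (tau v) else P i v

theorem bod0 : ∀ u v, (inB 0 u && inB 0 v) = true → bod u v = 0 := by decide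

theorem bod_ne0 : ∀ u v, (inB 0 u && inB 0 v) = false → bod u v ≠ 0 := by decide

theorem mu_F (P : Fin 4 → Fin 15 → Fin 3 → ℂ) (e : Sym2 (Fin 15)) :
    mu P (F e) = mu (tw P) e := by
  induction e with
  | h u v =>
    unfold F
    by_cases h : in0 s(u, v) = true
    · have h' : (inB 0 (tau u) && inB 0 (tau v)) = true := by
        rw [tau_in, tau_in]; exact h
      rw [if_pos h, Sym2.map_mk, mu_mk, mu_mk, bod0 _ _ h', bod0 _ _ h]
      rfl
    · have hb := bod_ne0 u v (by rw [in0_mk] at h; simpa using h)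
      rw [if_neg h, mu_mk, mu_mk]
      simp only [tw, if_neg hb]

theorem adjG_in : ∀ u v, adjG u v = true → inB (bod u v) u = true ∧ inB (bod u v) v = true := by
  decide

theorem adjH_in : ∀ u v, adjH u v = true → inB (bod u v) u = true ∧ inB (bod u v) v = true := by
  decide

/-- a polynomial vanishes on all measurements -/
def Van (Γ : SimpleGraph (Fin 15)) (f : MvPolynomial Γ.edgeSet ℂ) : Prop :=
  ∀ (p : Fin 15 → Fin 3 → ℂ) (z : Γ.edgeSet → ℂ),
    (∀ (e : Γ.edgeSet) (u v : Fin 15), s(u, v) = e.1 →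
      z e = ∑ k : Fin 3, (p u k - p v k) ^ 2) → MvPolynomial.eval z f = 0

theorem van_iff (Γ : SimpleGraph (Fin 15)) (f : MvPolynomial Γ.edgeSet ℂ) :
    Van Γ f ↔ ∀ p : Fin 15 → Fin 3 → ℂ, eval (fun e : Γ.edgeSet => mu (fun _ => p) e.1) f = 0 := by
  constructor
  · intro h p
    apply h p
    intro e u v he
    rw [← he, mu_mk]
  · intro h p z hz
    have : z = fun e : Γ.edgeSet => mu (fun _ => p) e.1 := by
      funext e
      obtain ⟨e, he⟩ := e
      induction e with
      | h u v =>
        rw [hz ⟨s(u, v), he⟩ u v rfl, mu_mk]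
    rw [this]
    exact h p

theorem van_G {f : MvPolynomial G.edgeSet ℂ} (h : Van G f) (P : Fin 4 → Fin 15 → Fin 3 → ℂ) :
    eval (fun e : G.edgeSet => mu P e.1) f = 0 :=
  decouple G (fun u v h => adjG_in u v h) f ((van_iff G f).mp h) P

theorem van_H {f : MvPolynomial H.edgeSet ℂ} (h : Van H f) (P : Fin 4 → Fin 15 → Fin 3 → ℂ) :
    eval (fun e : H.edgeSet => mu P e.1) f = 0 :=
  decouple H (fun u v h => adjH_in u v h) f ((van_iff H f).mp h) P

theorem closure_iff (x : H.edgeSet → ℂ) :
    (∀ f : MvPolynomial H.edgeSet ℂ, Van H f → eval x f = 0) ↔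
    (∀ f : MvPolynomial G.edgeSet ℂ, Van G f → eval (fun e => x (sig e)) f = 0) := by
  constructor
  · intro h f hf
    have h1 := h (rename sig f) (by
      rw [van_iff]
      intro p
      rw [eval_rename]
      have e1 : ((fun e : H.edgeSet => mu (fun _ => p) e.1) ∘ sig) =
          fun e : G.edgeSet => mu (tw (fun _ => p)) e.1 := by
        funext e
        rw [Function.comp_apply, sig_val, mu_F]
      rw [e1]
      exact van_G hf _)
    rw [eval_rename] at h1
    exact h1
  · intro h f hf
    have h1 := h (rename sig.symm f) (by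
      rw [van_iff]
      intro p
      rw [eval_rename]
      have e1 : ((fun e : G.edgeSet => mu (fun _ => p) e.1) ∘ sig.symm) =
          fun e : H.edgeSet => mu (tw (fun _ => p)) e.1 := by
        funext e
        rw [Function.comp_apply, sig_symm_val, mu_F]
      rw [e1]
      exact van_H hf _)
    rw [eval_rename] at h1
    have e2 : (fun e : G.edgeSet => x (sig e)) ∘ sig.symm = x := by
      funext e
      simp
    rw [e2] at h1
    exact h1

end Pool.Agent.H253R3
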