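import Pool.Agent.H253R3.Lin

set_option autoImplicit false

namespace Pool.Agent.H253R3

theorem cr_add_left (a b v : Fin 3 → ℝ) (k : Fin 3) : cr (a + b) v k = cr a v k + cr b v k := by
  fin_cases k <;> simp [cr] <;> ring

theorem cr_smul_left (s : ℝ) (a v : Fin 3 → ℝ) (k : Fin 3) : cr (s • a) v k = s * cr a v k := by
  fin_cases k <;> simp [cr] <;> ring

theorem cr_smul_right (s : ℝ) (a v : Fin 3 → ℝ) (k : Fin 3) : cr a (s • v) k = s * cr a v k := by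
  fin_cases k <;> simp [cr] <;> ring

theorem cr_zero (v : Fin 3 → ℝ) (k : Fin 3) : cr 0 v k = 0 := by
  have := cr_smul_left 0 0 v k
  simpa using this

/-- the joint map -/
noncomputable def jm : ((Fin 3 → Fin 3 → ℝ) × (Fin 3 → Fin 3 → ℝ)) →ₗ[ℝ] (Fin 6 → Fin 3 → ℝ) where
  toFun x := fun J k => match J with
    | 0 => -(cr (x.1 0) (p0 0) k + x.2 0 k)
    | 1 => -(cr (x.1 1) (p0 1) k + x.2 1 k)
    | 2 => -(cr (x.1 2) (p0 2) k + x.2 2 k)
    | 3 => (cr (x.1 0) (p0 3) k + x.2 0 k) - (cr (x.1 1) (p0 3) k + x.2 1 k)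
    | 4 => (cr (x.1 0) (p0 4) k + x.2 0 k) - (cr (x.1 2) (p0 4) k + x.2 2 k)
    | 5 => (cr (x.1 1) (p0 5) k + x.2 1 k) - (cr (x.1 2) (p0 5) k + x.2 2 k)
  map_add' x y := by
    funext J k
    fin_cases J <;> simp [cr_add_left] <;> ring
  map_smul' c x := by
    funext J k
    fin_cases J <;> simp [cr_smul_left] <;> ring

theorem jm_inj : Function.Injective jm := by
  rw [injective_iff_map_eq_zero]
  rintro ⟨α, t⟩ h
  have h0 : ∀ k, -(cr (α 0) (p0 0) k + t 0 k) = 0 := fun k => congrFun (congrFun h 0) k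
  have h1 : ∀ k, -(cr (α 1) (p0 1) k + t 1 k) = 0 := fun k => congrFun (congrFun h 1) k
  have h2 : ∀ k, -(cr (α 2) (p0 2) k + t 2 k) = 0 := fun k => congrFun (congrFun h 2) k
  have h3 : ∀ k, (cr (α 0) (p0 3) k + t 0 k) - (cr (α 1) (p0 3) k + t 1 k) = 0 :=
    fun k => congrFun (congrFun h 3) k
  have h4 : ∀ k, (cr (α 0) (p0 4) k + t 0 k) - (cr (α 2) (p0 4) k + t 2 k) = 0 :=
    fun k => congrFun (congrFun h 4) k
  have h5 : ∀ k, (cr (α 1) (p0 5) k + t 1 k) - (cr (α 2) (p0 5) k + t 2 k) = 0 :=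
    fun k => congrFun (congrFun h 5) k
  obtain ⟨⟨e1, e2, e3⟩, f1, f2, f3⟩ := oct_inj 0 (α 0) (α 1) (α 2) 0 (t 0) (t 1) (t 2)
    (fun k => by rw [cr_zero, Pi.zero_apply]; linarith [h0 k])
    (fun k => by rw [cr_zero, Pi.zero_apply]; linarith [h1 k])
    (fun k => by rw [cr_zero, Pi.zero_apply]; linarith [h2 k])
    (fun k => by linarith [h3 k]) (fun k => by linarith [h4 k]) (fun k => by linarith [h5 k])
  refine Prod.ext ?_ ?_
  · funext i
    fin_cases i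
    · exact e1
    · exact e2
    · exact e3
  · funext i
    fin_cases i
    · exact f1
    · exact f2
    · exact f3

theorem jm_surj : Function.Surjective jm := by
  refine (LinearMap.injective_iff_surjective_of_finrank_eq_finrank ?_).mp jm_inj
  have e1 : Module.finrank ℝ (Fin 3 → Fin 3 → ℝ) = 9 := by
    rw [Module.finrank_pi_fintype]; simp
  have e2 : Module.finrank ℝ (Fin 6 → Fin 3 → ℝ) = 18 := by
    rw [Module.finrank_pi_fintype]; simp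
  rw [Module.finrank_prod, e1, e2]

/-- the first body containing a vertex -/
def fb (v : Fin 15) : Fin 4 :=
  if inB 0 v then 0 else if inB 1 v then 1 else if inB 2 v then 2 else 3

theorem in_cases : ∀ i v, inB i v = true → i = fb v ∨ (v = 0 ∧ i = 1) ∨ (v = 1 ∧ i = 2) ∨
    (v = 2 ∧ i = 3) ∨ (v = 3 ∧ i = 2) ∨ (v = 4 ∧ i = 3) ∨ (v = 5 ∧ i = 3) := by decide

/-- the derivative of the gluing map is onto -/
theorem lin_surj (y : Fin 4 → Fin 15 → Fin 3 → ℝ) :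
    ∃ (a t : Fin 4 → Fin 3 → ℝ) (p : Fin 15 → Fin 3 → ℝ), ∀ i v, inB i v = true → ∀ k,
      p v k + 2 * cr (a i) (p0 v) k + t i k = y i v k := by
  obtain ⟨⟨α, s⟩, h⟩ := jm_surj (fun J k => match J with
    | 0 => y 0 0 k - y 1 0 k
    | 1 => y 0 1 k - y 2 1 k
    | 2 => y 0 2 k - y 3 2 k
    | 3 => y 1 3 k - y 2 3 k
    | 4 => y 1 4 k - y 3 4 k
    | 5 => y 2 5 k - y 3 5 k)
  have h0 : ∀ k, -(cr (α 0) (p0 0) k + s 0 k) = y 0 0 k - y 1 0 k :=
    fun k => congrFun (congrFun h 0) k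
  have h1 : ∀ k, -(cr (α 1) (p0 1) k + s 1 k) = y 0 1 k - y 2 1 k :=
    fun k => congrFun (congrFun h 1) k
  have h2 : ∀ k, -(cr (α 2) (p0 2) k + s 2 k) = y 0 2 k - y 3 2 k :=
    fun k => congrFun (congrFun h 2) k
  have h3 : ∀ k, (cr (α 0) (p0 3) k + s 0 k) - (cr (α 1) (p0 3) k + s 1 k) =
      y 1 3 k - y 2 3 k := fun k => congrFun (congrFun h 3) k
  have h4 : ∀ k, (cr (α 0) (p0 4) k + s 0 k) - (cr (α 2) (p0 4) k + s 2 k) =
      y 1 4 k - y 3 4 k := fun k => congrFun (congrFun h 4) k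
  have h5 : ∀ k, (cr (α 1) (p0 5) k + s 1 k) - (cr (α 2) (p0 5) k + s 2 k) =
      y 2 5 k - y 3 5 k := fun k => congrFun (congrFun h 5) k
  clear h
  let a : Fin 4 → Fin 3 → ℝ := ![0, (1 / 2 : ℝ) • α 0, (1 / 2 : ℝ) • α 1, (1 / 2 : ℝ) • α 2]
  let t : Fin 4 → Fin 3 → ℝ := ![0, s 0, s 1, s 2]
  have ha0 : ∀ v k, 2 * cr (a 0) (p0 v) k = 0 := by
    intro v k
    have : a 0 = 0 := rfl
    rw [this, cr_zero, mul_zero]
  have ha1 : ∀ v k, 2 * cr (a 1) (p0 v) k = cr (α 0) (p0 v) k := by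
    intro v k
    have : a 1 = (1 / 2 : ℝ) • α 0 := rfl
    rw [this, cr_smul_left]; ring
  have ha2 : ∀ v k, 2 * cr (a 2) (p0 v) k = cr (α 1) (p0 v) k := by
    intro v k
    have : a 2 = (1 / 2 : ℝ) • α 1 := rfl
    rw [this, cr_smul_left]; ring
  have ha3 : ∀ v k, 2 * cr (a 3) (p0 v) k = cr (α 2) (p0 v) k := by
    intro v k
    have : a 3 = (1 / 2 : ℝ) • α 2 := rfl
    rw [this, cr_smul_left]; ring
  have ht0 : ∀ k, t 0 k = 0 := fun k => rfl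
  have ht1 : ∀ k, t 1 k = s 0 k := fun k => rfl
  have ht2 : ∀ k, t 2 k = s 1 k := fun k => rfl
  have ht3 : ∀ k, t 3 k = s 2 k := fun k => rfl
  refine ⟨a, t, fun v k => y (fb v) v k - (2 * cr (a (fb v)) (p0 v) k + t (fb v) k), ?_⟩
  intro i v hi k
  have f0 : fb 0 = 0 := by decide
  have f1 : fb 1 = 0 := by decide
  have f2 : fb 2 = 0 := by decide
  have f3 : fb 3 = 1 := by decide
  have f4 : fb 4 = 1 := by decide
  have f5 : fb 5 = 2 := by decide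
  beta_reduce
  rcases in_cases i v hi with h | ⟨rfl, rfl⟩ | ⟨rfl, rfl⟩ | ⟨rfl, rfl⟩ | ⟨rfl, rfl⟩ | ⟨rfl, rfl⟩ |
    ⟨rfl, rfl⟩
  · rw [h]; ring
  · rw [f0, ha0, ha1, ht0, ht1]; linarith [h0 k]
  · rw [f1, ha0, ha2, ht0, ht2]; linarith [h1 k]
  · rw [f2, ha0, ha3, ht0, ht3]; linarith [h2 k]
  · rw [f3, ha1, ha2, ht1, ht2]; linarith [h3 k]
  · rw [f4, ha1, ha3, ht1, ht3]; linarith [h4 k]
  · rw [f5, ha2, ha3, ht2, ht3]; linarith [h5 k]

end Pool.Agent.H253R3
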